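import Pool.Agent.D0H35.HT.Lin

/-!
Module HN of project HT: the mixed Hodge numbers.
-/

set_option autoImplicit false

namespace Pool.Agent.D0H35.HT

open Pool.Agent.D0H90.HT

theorem t_HN : S_HN := by
  intro 𝓗 V a b ha hb hab hcoh k p q
  obtain ⟨h1, h2, h3, h4, h5, -⟩ := classes 𝓗 V ha hb hab
  obtain ⟨π, p1, p2, -, -⟩ := exists_proj (𝓗.internal V.S)
  unfold hodgeNumber
  rw [hcoh]
  have key : ∀ (t : ℕ × ℕ × ℕ) (v : 𝓗.H V.S), v ≠ 0 → v ∈ 𝓗.piece V.S t →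
      v ∈ Submodule.span ℂ {1, a, b, a * b} →
      (∀ c0 c1 c2 c3 : ℂ, ∃ c : ℂ, π t (c0 • (1 : 𝓗.H V.S) + c1 • a + c2 • b + c3 • (a * b)) =
        c • v) →
      Module.finrank ℂ ↥(𝓗.piece V.S t ⊓ Submodule.span ℂ {1, a, b, a * b}) = 1 := by
    intro t v hv hvt hvs hπ
    have : 𝓗.piece V.S t ⊓ Submodule.span ℂ {1, a, b, a * b} = Submodule.span ℂ {v} := by
      apply le_antisymm
      · rintro x ⟨hx1, hx2⟩
        obtain ⟨c0, c1, c2, c3, hx⟩ := mem_span4.1 hx2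
        obtain ⟨c, hc⟩ := hπ c0 c1 c2 c3
        rw [← hx, p1 t x hx1] at hc
        exact Submodule.mem_span_singleton.2 ⟨c, hc.symm⟩
      · rw [Submodule.span_singleton_le_iff_mem]
        exact ⟨hvt, hvs⟩
    rw [this]
    exact finrank_span_singleton hv
  have sub : ∀ y ∈ ({1, a, b, a * b} : Set (𝓗.H V.S)), y ∈ Submodule.span ℂ {1, a, b, a * b} :=
    fun y hy => Submodule.subset_span hy
  split_ifs with h
  · rcases h with h | h | h | h
    · rw [h]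
      refine key _ 1 h3 h1 (sub _ (by simp)) fun c0 c1 c2 c3 => ⟨c0, ?_⟩
      simp only [map_add, map_smul]
      rw [p1 _ _ h1, p2 (3, 2, 1) (0, 0, 0) (by decide) _ ha,
        p2 (3, 1, 2) (0, 0, 0) (by decide) _ hb, p2 (6, 3, 3) (0, 0, 0) (by decide) _ h2]
      simp
    · rw [h]
      refine key _ a h4 ha (sub _ (by simp)) fun c0 c1 c2 c3 => ⟨c1, ?_⟩
      simp only [map_add, map_smul]
      rw [p2 (0, 0, 0) (3, 2, 1) (by decide) _ h1, p1 _ _ ha,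
        p2 (3, 1, 2) (3, 2, 1) (by decide) _ hb, p2 (6, 3, 3) (3, 2, 1) (by decide) _ h2]
      simp
    · rw [h]
      refine key _ b h5 hb (sub _ (by simp)) fun c0 c1 c2 c3 => ⟨c2, ?_⟩
      simp only [map_add, map_smul]
      rw [p2 (0, 0, 0) (3, 1, 2) (by decide) _ h1, p2 (3, 2, 1) (3, 1, 2) (by decide) _ ha,
        p1 _ _ hb, p2 (6, 3, 3) (3, 1, 2) (by decide) _ h2]
      simp
    · rw [h]
      refine key _ (a * b) hab h2 (sub _ (by simp)) fun c0 c1 c2 c3 => ⟨c3, ?_⟩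
      simp only [map_add, map_smul]
      rw [p2 (0, 0, 0) (6, 3, 3) (by decide) _ h1, p2 (3, 2, 1) (6, 3, 3) (by decide) _ ha,
        p2 (3, 1, 2) (6, 3, 3) (by decide) _ hb, p1 _ _ h2]
      simp
  · have hbot : 𝓗.piece V.S (k, p, q) ⊓ Submodule.span ℂ {1, a, b, a * b} = ⊥ := by
      rw [eq_bot_iff]
      rintro x ⟨hx1, hx2⟩
      obtain ⟨c0, c1, c2, c3, hx⟩ := mem_span4.1 hx2
      rw [Submodule.mem_bot, ← p1 _ x hx1, hx]
      simp only [map_add, map_smul]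
      rw [p2 (0, 0, 0) (k, p, q) (fun h' => h (Or.inl h'.symm)) _ h1,
        p2 (3, 2, 1) (k, p, q) (fun h' => h (Or.inr (Or.inl h'.symm))) _ ha,
        p2 (3, 1, 2) (k, p, q) (fun h' => h (Or.inr (Or.inr (Or.inl h'.symm)))) _ hb,
        p2 (6, 3, 3) (k, p, q) (fun h' => h (Or.inr (Or.inr (Or.inr h'.symm)))) _ h2]
      simp
    rw [hbot]
    exact finrank_bot ℂ _

end Pool.Agent.D0H35.HT
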