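import Pool.Agent.D0H90.HT.Stm

/-!
Linear algebra for the modules HN and MOD of project HT.
-/

set_option autoImplicit false

namespace Pool.Agent.D0H35.HT

section

variable {I M : Type} [DecidableEq I] [AddCommGroup M] [Module ℂ M] {ℳ : I → Submodule ℂ M}

/-- linear maps which agree on the pieces are equal -/
theorem ext_internal {N : Type} [AddCommGroup N] [Module ℂ N] (h : DirectSum.IsInternal ℳ)
    {f g : M →ₗ[ℂ] N} (hfg : ∀ i, ∀ x ∈ ℳ i, f x = g x) : f = g := by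
  apply LinearMap.ext
  intro x
  have hx : x ∈ ⨆ i, ℳ i := by rw [h.submodule_iSup_eq_top]; trivial
  refine Submodule.iSup_induction ℳ (motive := fun x => f x = g x) hx hfg (by simp) ?_
  intro x y hx hy
  rw [map_add, map_add, hx, hy]

/-- the projections -/
theorem exists_proj (h : DirectSum.IsInternal ℳ) : ∃ π : I → M →ₗ[ℂ] M,
    (∀ i, ∀ x ∈ ℳ i, π i x = x) ∧ (∀ i j, i ≠ j → ∀ x ∈ ℳ i, π j x = 0) ∧
    (∀ i x, π i x ∈ ℳ i) ∧ ∀ x, ∃ s : Finset I, ∑ i ∈ s, π i x = x := by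
  classical
  letI := h.chooseDecomposition
  refine ⟨fun i => (ℳ i).subtype ∘ₗ (DirectSum.component ℂ I (fun i => ℳ i) i) ∘ₗ
    (DirectSum.decomposeLinearEquiv ℳ).toLinearMap, ?_, ?_, ?_, ?_⟩
  · intro i x hx
    exact DirectSum.decompose_of_mem_same ℳ hx
  · intro i j hij x hx
    exact DirectSum.decompose_of_mem_ne ℳ hx hij
  · intro i x
    exact Subtype.mem _
  · intro x
    exact ⟨_, DirectSum.sum_support_decompose ℳ x⟩

end

theorem mem_span4 {M : Type} [AddCommGroup M] [Module ℂ M] {u v w t x : M} :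
    x ∈ Submodule.span ℂ {u, v, w, t} ↔
      ∃ c0 c1 c2 c3 : ℂ, x = c0 • u + c1 • v + c2 • w + c3 • t := by
  constructor
  · intro hx
    rw [Submodule.mem_span_insert] at hx
    obtain ⟨c0, y, hy, rfl⟩ := hx
    rw [Submodule.mem_span_insert] at hy
    obtain ⟨c1, y, hy, rfl⟩ := hy
    rw [Submodule.mem_span_pair] at hy
    obtain ⟨c2, c3, rfl⟩ := hy
    exact ⟨c0, c1, c2, c3, by simp only [add_assoc]⟩
  · rintro ⟨c0, c1, c2, c3, rfl⟩
    have h : ∀ y ∈ ({u, v, w, t} : Set M), ∀ c : ℂ, c • y ∈ Submodule.span ℂ {u, v, w, t} :=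
      fun y hy c => Submodule.smul_mem _ _ (Submodule.subset_span hy)
    refine add_mem (add_mem (add_mem (h u (by simp) c0) (h v (by simp) c1)) (h w (by simp) c2))
      (h t (by simp) c3)

open Pool.Agent.D0H90.HT

/-- the four classes and their projections -/
theorem classes (𝓗 : MixedHodgeTheory) (V : QuotVar) {a b : 𝓗.H V.S}
    (ha : a ∈ 𝓗.piece V.S (3, 2, 1)) (hb : b ∈ 𝓗.piece V.S (3, 1, 2)) (hab : a * b ≠ 0) :
    (1 : 𝓗.H V.S) ∈ 𝓗.piece V.S (0, 0, 0) ∧ a * b ∈ 𝓗.piece V.S (6, 3, 3) ∧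
      (1 : 𝓗.H V.S) ≠ 0 ∧ a ≠ 0 ∧ b ≠ 0 ∧
      ∀ c0 c1 c2 c3 : ℂ, c0 • (1 : 𝓗.H V.S) + c1 • a + c2 • b + c3 • (a * b) = 0 →
        c0 = 0 ∧ c1 = 0 ∧ c2 = 0 ∧ c3 = 0 := by
  have h1 : (1 : 𝓗.H V.S) ∈ 𝓗.piece V.S (0, 0, 0) := 𝓗.one_mem V.S
  have h2 : a * b ∈ 𝓗.piece V.S (6, 3, 3) := 𝓗.mul_mem V.S _ _ a b ha hb
  have h3 : (1 : 𝓗.H V.S) ≠ 0 := by
    intro h
    apply hab
    rw [← mul_one (a * b), h, mul_zero]
  have h4 : a ≠ 0 := by rintro rfl; exact hab (zero_mul b)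
  have h5 : b ≠ 0 := by rintro rfl; exact hab (mul_zero a)
  refine ⟨h1, h2, h3, h4, h5, ?_⟩
  obtain ⟨π, p1, p2, -, -⟩ := exists_proj (𝓗.internal V.S)
  intro c0 c1 c2 c3 h
  have q0 := congrArg (π (0, 0, 0)) h
  have q1 := congrArg (π (3, 2, 1)) h
  have q2 := congrArg (π (3, 1, 2)) h
  have q3 := congrArg (π (6, 3, 3)) h
  simp only [map_add, map_smul, map_zero] at q0 q1 q2 q3
  rw [p1 _ _ h1, p2 (3, 2, 1) (0, 0, 0) (by decide) _ ha, p2 (3, 1, 2) (0, 0, 0) (by decide) _ hb,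
    p2 (6, 3, 3) (0, 0, 0) (by decide) _ h2] at q0
  rw [p2 (0, 0, 0) (3, 2, 1) (by decide) _ h1, p1 _ _ ha, p2 (3, 1, 2) (3, 2, 1) (by decide) _ hb,
    p2 (6, 3, 3) (3, 2, 1) (by decide) _ h2] at q1
  rw [p2 (0, 0, 0) (3, 1, 2) (by decide) _ h1, p2 (3, 2, 1) (3, 1, 2) (by decide) _ ha, p1 _ _ hb,
    p2 (6, 3, 3) (3, 1, 2) (by decide) _ h2] at q2
  rw [p2 (0, 0, 0) (6, 3, 3) (by decide) _ h1, p2 (3, 2, 1) (6, 3, 3) (by decide) _ ha,
    p2 (3, 1, 2) (6, 3, 3) (by decide) _ hb, p1 _ _ h2] at q3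
  simp only [smul_zero, add_zero, zero_add] at q0 q1 q2 q3
  exact ⟨(smul_eq_zero.1 q0).resolve_right h3, (smul_eq_zero.1 q1).resolve_right h4,
    (smul_eq_zero.1 q2).resolve_right h5, (smul_eq_zero.1 q3).resolve_right hab⟩

end Pool.Agent.D0H35.HT
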