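import Pool.Agent.D0H35.HT.Lin

/-!
Module MOD of project HT: the minimal model.
-/

set_option autoImplicit false

namespace Pool.Agent.D0H35.HT

open Pool.Agent.D0H90.HT

/-- the exterior algebra on two generators -/
theorem ext_span (w : ExteriorAlgebra ℂ (Fin 2 → ℂ)) :
    ∃ c0 c1 c2 c3 : ℂ, w = c0 • 1 + c1 • ExteriorAlgebra.ι ℂ (![1, 0] : Fin 2 → ℂ) +
      c2 • ExteriorAlgebra.ι ℂ (![0, 1] : Fin 2 → ℂ) +
      c3 • (ExteriorAlgebra.ι ℂ (![1, 0] : Fin 2 → ℂ) *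
        ExteriorAlgebra.ι ℂ (![0, 1] : Fin 2 → ℂ)) := by
  have he := ExteriorAlgebra.ι_sq_zero (R := ℂ) (![1, 0] : Fin 2 → ℂ)
  have hf := ExteriorAlgebra.ι_sq_zero (R := ℂ) (![0, 1] : Fin 2 → ℂ)
  have hef : ExteriorAlgebra.ι ℂ (![0, 1] : Fin 2 → ℂ) * ExteriorAlgebra.ι ℂ (![1, 0] : Fin 2 → ℂ)
      = - (ExteriorAlgebra.ι ℂ (![1, 0] : Fin 2 → ℂ) *
        ExteriorAlgebra.ι ℂ (![0, 1] : Fin 2 → ℂ)) := by
    have := ExteriorAlgebra.ι_add_mul_swap (R := ℂ) (![0, 1] : Fin 2 → ℂ) (![1, 0] : Fin 2 → ℂ)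
    exact eq_neg_of_add_eq_zero_left this
  have hι : ∀ x : Fin 2 → ℂ, ExteriorAlgebra.ι ℂ x =
      x 0 • ExteriorAlgebra.ι ℂ (![1, 0] : Fin 2 → ℂ) +
        x 1 • ExteriorAlgebra.ι ℂ (![0, 1] : Fin 2 → ℂ) := by
    intro x
    rw [← map_smul, ← map_smul, ← map_add]
    congr 1
    funext i
    fin_cases i <;> simp
  generalize ExteriorAlgebra.ι ℂ (![1, 0] : Fin 2 → ℂ) = e at *
  generalize ExteriorAlgebra.ι ℂ (![0, 1] : Fin 2 → ℂ) = f at *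
  induction w using ExteriorAlgebra.induction with
  | algebraMap r =>
    refine ⟨r, 0, 0, 0, ?_⟩
    simp [Algebra.algebraMap_eq_smul_one]
  | ι x =>
    refine ⟨0, x 0, x 1, 0, ?_⟩
    rw [hι x]
    simp
  | mul u v hu hv =>
    obtain ⟨c0, c1, c2, c3, rfl⟩ := hu
    obtain ⟨d0, d1, d2, d3, rfl⟩ := hv
    have g1 : e * (e * f) = 0 := by rw [← mul_assoc, he, zero_mul]
    have g2 : f * (e * f) = 0 := by
      rw [← mul_assoc, hef, neg_mul, mul_assoc, hf, mul_zero, neg_zero]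
    have g3 : e * f * e = 0 := by rw [mul_assoc, hef, mul_neg, g1, neg_zero]
    have g4 : e * f * f = 0 := by rw [mul_assoc, hf, mul_zero]
    have g5 : e * f * (e * f) = 0 := by rw [← mul_assoc, g3, zero_mul]
    refine ⟨c0 * d0, c0 * d1 + c1 * d0, c0 * d2 + c2 * d0, c0 * d3 + c3 * d0 + c1 * d2 - c2 * d1,
      ?_⟩
    simp only [add_mul, mul_add, smul_mul_smul_comm, one_mul, mul_one, he, hf, hef, g1, g2, g3, g4,
      g5, smul_zero, add_zero, smul_neg]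
    module
  | add u v hu hv =>
    obtain ⟨c0, c1, c2, c3, rfl⟩ := hu
    obtain ⟨d0, d1, d2, d3, rfl⟩ := hv
    refine ⟨c0 + d0, c1 + d1, c2 + d2, c3 + d3, ?_⟩
    module

theorem t_MOD : S_MOD := by
  intro 𝓗 V a b ha hb hab hcoh A hA
  obtain ⟨ρ, hρ1, hρ2, hρ3, hρ4, hρ5⟩ := hA
  obtain ⟨h1, h2, h3, h4, h5, h6⟩ := classes 𝓗 V ha hb hab
  obtain ⟨π, p1, p2, -, p4⟩ := exists_proj (𝓗.internal V.S)
  obtain ⟨κ, k1, k2, k3, k4⟩ := exists_proj A.internal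
  -- the differential and the components
  have hd : ∀ j x, A.d (κ j x) = κ (j + 1) (A.d x) := by
    intro j x
    have : A.d ∘ₗ κ j = κ (j + 1) ∘ₗ A.d := by
      apply ext_internal A.internal
      intro i x hx
      by_cases hij : i = j
      · subst hij
        simp only [LinearMap.comp_apply]
        rw [k1 _ _ hx, k1 _ _ (A.d_mem _ _ hx)]
      · simp only [LinearMap.comp_apply]
        rw [k2 _ _ hij _ hx, k2 _ _ (by omega) _ (A.d_mem _ _ hx), map_zero]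
    exact LinearMap.congr_fun this x
  have hker : ∀ j (z : LinearMap.ker A.d), κ j z.1 ∈ LinearMap.ker A.d := by
    intro j z
    rw [LinearMap.mem_ker, hd, LinearMap.mem_ker.1 z.2, map_zero]
  have hpk : ∀ (k k' : ℕ) (t : ℕ × ℕ) (x : 𝓗.H V.S), k ≠ k' →
      x ∈ ⨆ a : ℕ × ℕ, 𝓗.piece V.S (k, a) → π (k', t) x = 0 := by
    intro k k' t x hk hx
    have hle : (⨆ a : ℕ × ℕ, 𝓗.piece V.S (k, a)) ≤ LinearMap.ker (π (k', t)) := by
      refine iSup_le fun a x hx => ?_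
      rw [LinearMap.mem_ker]
      refine p2 (k, a) (k', t) ?_ x hx
      intro h
      exact hk (Prod.ext_iff.1 h).1
    exact LinearMap.mem_ker.1 (hle hx)
  have hcomp : ∀ (c : 𝓗.H V.S) (t : ℕ × ℕ), c ∈ 𝓗.piece V.S (3, t) → c ∈ LinearMap.range ρ →
      ∃ z : LinearMap.ker A.d, z.1 ∈ A.gr 3 ∧ ρ z = c := by
    rintro c t hc ⟨z, rfl⟩
    refine ⟨⟨κ 3 z.1, hker 3 z⟩, k3 _ _, ?_⟩
    have hz : ∀ t', π (3, t') (ρ z) = π (3, t') (ρ ⟨κ 3 z.1, hker 3 z⟩) := by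
      intro t'
      let K : LinearMap.ker A.d →ₗ[ℂ] LinearMap.ker A.d :=
        LinearMap.restrict (κ 3) (fun z hz => hker 3 ⟨z, hz⟩)
      let F : LinearMap.ker A.d →ₗ[ℂ] 𝓗.H V.S := (π (3, t')) ∘ₗ ρ ∘ₗ (LinearMap.id - K)
      have hF : ∀ k, F ⟨κ k z.1, hker k z⟩ = 0 := by
        intro k
        show π (3, t') (ρ ((⟨κ k z.1, hker k z⟩ : LinearMap.ker A.d) - K ⟨κ k z.1, hker k z⟩)) = 0
        by_cases hk : k = 3
        · subst hk
          have : K ⟨κ 3 z.1, hker 3 z⟩ = ⟨κ 3 z.1, hker 3 z⟩ := by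
            apply Subtype.ext
            exact k1 3 _ (k3 3 _)
          rw [this, sub_self, map_zero, map_zero]
        · have : K ⟨κ k z.1, hker k z⟩ = 0 := by
            apply Subtype.ext
            exact k2 k 3 hk _ (k3 k _)
          rw [this, sub_zero]
          exact hpk k 3 t' _ hk (hρ3 k _ (k3 k _))
      obtain ⟨s, hs⟩ := k4 z.1
      have hsum : z = ∑ k ∈ s, (⟨κ k z.1, hker k z⟩ : LinearMap.ker A.d) := by
        apply Subtype.ext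
        rw [AddSubmonoidClass.coe_finsetSum]
        exact hs.symm
      have hFz : F z = 0 := by
        have : F z = ∑ k ∈ s, F ⟨κ k z.1, hker k z⟩ := by
          conv_lhs => rw [hsum]
          rw [map_sum]
        rw [this]
        exact Finset.sum_eq_zero fun k _ => hF k
      have hFz' : π (3, t') (ρ (z - ⟨κ 3 z.1, hker 3 z⟩)) = 0 := hFz
      rw [map_sub, map_sub, sub_eq_zero] at hFz'
      exact hFz'
    have hall : ∀ i, π i (ρ ⟨κ 3 z.1, hker 3 z⟩ - ρ z) = 0 := by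
      rintro ⟨k, t'⟩
      rw [map_sub]
      by_cases hk : k = 3
      · subst hk
        rw [hz t', sub_self]
      · rw [hpk 3 k t' _ (Ne.symm hk) (hρ3 3 _ (k3 3 _)),
          p2 (3, t) (k, t') (fun h => hk (Prod.ext_iff.1 h).1.symm) _ hc, sub_zero]
    obtain ⟨s, hs⟩ := p4 (ρ ⟨κ 3 z.1, hker 3 z⟩ - ρ z)
    rw [Finset.sum_eq_zero (fun i _ => hall i)] at hs
    exact sub_eq_zero.1 hs.symm
  have hmem : ∀ c ∈ ({1, a, b, a * b} : Set (𝓗.H V.S)), c ∈ LinearMap.range ρ := by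
    intro c hc
    rw [hρ1, hcoh]
    exact Submodule.subset_span hc
  obtain ⟨x, hx, hxa⟩ := hcomp a (2, 1) ha (hmem a (by simp))
  obtain ⟨y, hy, hyb⟩ := hcomp b (1, 2) hb (hmem b (by simp))
  -- the differential of the constants
  have hd1 : A.d 1 = 0 := by
    have := A.leibniz 0 1 1 A.one_mem
    rw [mul_one, pow_zero, one_smul, mul_one, one_mul] at this
    exact left_eq_add.1 this
  have hdx : A.d x.1 = 0 := LinearMap.mem_ker.1 x.2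
  have hdy : A.d y.1 = 0 := LinearMap.mem_ker.1 y.2
  have hdxy : A.d (x.1 * y.1) = 0 := by
    rw [A.leibniz 3 x.1 y.1 hx, hdx, hdy, zero_mul, mul_zero, smul_zero, add_zero]
  have hsq : ∀ u : A.A, u ∈ A.gr 3 → u * u = 0 := by
    intro u hu
    have := A.comm 3 3 u u hu hu
    have h' : ((-1 : ℂ) ^ (3 * 3)) = -1 := by norm_num
    rw [h', neg_smul, one_smul] at this
    have h2 : (2 : ℂ) • (u * u) = 0 := by
      rw [two_smul]
      nth_rw 1 [this]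
      exact neg_add_cancel _
    exact (smul_eq_zero.1 h2).resolve_left two_ne_zero
  let f : (Fin 2 → ℂ) →ₗ[ℂ] A.A := (LinearMap.proj (0 : Fin 2) : (Fin 2 → ℂ) →ₗ[ℂ] ℂ).smulRight x.1 +
    (LinearMap.proj (1 : Fin 2) : (Fin 2 → ℂ) →ₗ[ℂ] ℂ).smulRight y.1
  have hfv : ∀ v, f v = v 0 • x.1 + v 1 • y.1 := fun v => rfl
  have hfgr : ∀ v, f v ∈ A.gr 3 := by
    intro v
    rw [hfv]
    exact add_mem (Submodule.smul_mem _ _ hx) (Submodule.smul_mem _ _ hy)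
  let φ : ExteriorAlgebra ℂ (Fin 2 → ℂ) →ₐ[ℂ] A.A :=
    ExteriorAlgebra.lift ℂ ⟨f, fun v => hsq _ (hfgr v)⟩
  have hφι : ∀ v, φ (ExteriorAlgebra.ι ℂ v) = f v := fun v =>
    ExteriorAlgebra.lift_ι_apply ℂ f (fun v => hsq _ (hfgr v)) v
  let W : ℂ → ℂ → ℂ → ℂ → LinearMap.ker A.d := fun c0 c1 c2 c3 =>
    c0 • (⟨1, hd1⟩ : LinearMap.ker A.d) + c1 • x + c2 • y +
      c3 • (⟨x.1 * y.1, hdxy⟩ : LinearMap.ker A.d)
  have hφW : ∀ c0 c1 c2 c3 : ℂ, φ (c0 • 1 + c1 • ExteriorAlgebra.ι ℂ (![1, 0] : Fin 2 → ℂ) +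
      c2 • ExteriorAlgebra.ι ℂ (![0, 1] : Fin 2 → ℂ) +
      c3 • (ExteriorAlgebra.ι ℂ (![1, 0] : Fin 2 → ℂ) *
        ExteriorAlgebra.ι ℂ (![0, 1] : Fin 2 → ℂ))) = (W c0 c1 c2 c3).1 := by
    intro c0 c1 c2 c3
    have e1 : f ![1, 0] = x.1 := by rw [hfv]; simp
    have e2 : f ![0, 1] = y.1 := by rw [hfv]; simp
    rw [map_add, map_add, map_add, map_smul, map_smul, map_smul, map_smul, map_mul, map_one,
      hφι, hφι, e1, e2]
    rfl
  have hρW : ∀ c0 c1 c2 c3 : ℂ, ρ (W c0 c1 c2 c3) =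
      c0 • (1 : 𝓗.H V.S) + c1 • a + c2 • b + c3 • (a * b) := by
    intro c0 c1 c2 c3
    show ρ (c0 • (⟨1, hd1⟩ : LinearMap.ker A.d) + c1 • x + c2 • y +
      c3 • (⟨x.1 * y.1, hdxy⟩ : LinearMap.ker A.d)) = _
    rw [map_add, map_add, map_add, map_smul, map_smul, map_smul, map_smul, hρ4 _ rfl,
      hρ5 x y ⟨x.1 * y.1, hdxy⟩ rfl, hxa, hyb]
  refine ⟨φ, fun v => ?_, fun w => ?_, fun w hw => ?_, fun z hz => ?_⟩
  · rw [hφι]
    exact hfgr v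
  · obtain ⟨c0, c1, c2, c3, rfl⟩ := ext_span w
    rw [hφW]
    exact LinearMap.mem_ker.1 (W c0 c1 c2 c3).2
  · obtain ⟨c0, c1, c2, c3, rfl⟩ := ext_span w
    rw [hφW] at hw
    have := (hρ2 _).2 hw
    rw [hρW] at this
    obtain ⟨r0, r1, r2, r3⟩ := h6 _ _ _ _ this
    rw [r0, r1, r2, r3]
    simp
  · have hr : ρ ⟨z, hz⟩ ∈ LinearMap.range ρ := ⟨_, rfl⟩
    rw [hρ1, hcoh] at hr
    obtain ⟨c0, c1, c2, c3, hc⟩ := mem_span4.1 hr
    rw [← hρW, ← sub_eq_zero, ← map_sub] at hc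
    obtain ⟨u, hu⟩ := (hρ2 _).1 hc
    refine ⟨c0 • 1 + c1 • ExteriorAlgebra.ι ℂ (![1, 0] : Fin 2 → ℂ) +
        c2 • ExteriorAlgebra.ι ℂ (![0, 1] : Fin 2 → ℂ) +
        c3 • (ExteriorAlgebra.ι ℂ (![1, 0] : Fin 2 → ℂ) *
          ExteriorAlgebra.ι ℂ (![0, 1] : Fin 2 → ℂ)), u, ?_⟩
    rw [hφW, hu]
    show z = (W c0 c1 c2 c3).1 + (z - (W c0 c1 c2 c3).1)
    rw [add_sub_cancel]

end Pool.Agent.D0H35.HT
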